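import Pool.Agent.Run7.h997.Main

/-!
# An efficient exact uniform sampler for simplicial spanning trees

There is a coin-tossing machine which, given the list of all faces of a finite simplicial complex
of any dimension `d ≥ 1`, outputs every `d`-dimensional spanning tree with probability exactly one
over the number of spanning trees, in expected polynomial time.

The machine runs the basis exchange walk of the column matroid of the boundary map for polynomially
many steps.  The spectral gap of this walk (Anari, Liu, Oveis Gharan and Vinzant) is proved from
scratch, so the distribution of the end of the walk is exponentially close to uniform.  With an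
exponentially small probability `2 ^ (-s)` the machine takes another branch, of exponential running
time about `2 ^ s`: there it computes all the numbers of walks ending in the different bases, and
chooses the output with exactly the probabilities that make up for the deviation from the uniform
distribution (or starts again).  Linear independence is decided by Gram determinants.
-/

namespace Pool.Agent.Results.MP_d8fb5e_lc.ExactUniformSampler

open Pool.Agent.Run7.h997 Pool.Agent.H591R2 Pool.Agent.NPC

/-- An exact uniform sampler for the spanning trees of simplicial complexes of any dimension
`d ≥ 1`, with expected running time polynomial in the length of the input (and in the number of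
faces, when the vertices are numbered by integers below the number of faces). -/
theorem result : ∃ (M : CoinMachine) (p q : Polynomial ℕ),
    ∀ (Δ : Finset (Finset ℕ)) (d : ℕ) (L : List (List ℕ)),
      IsComplex Δ → HasDim Δ d → 1 ≤ d → Lists L Δ →
      (∀ Υ : Finset (Finset ℕ), IsSpanningTree Δ d Υ →
        outProb M (bits L) (bits (sublistOf L Υ)) =
          1 / ({Υ : Finset (Finset ℕ) | IsSpanningTree Δ d Υ}.ncard : ENNReal)) ∧
      (∀ w y : List Bool, M.HaltsWith (bits L) w y →
        ∃ Υ : Finset (Finset ℕ), IsSpanningTree Δ d Υ ∧ y = bits (sublistOf L Υ)) ∧
      M.expectedTime (bits L) ≤ (p.eval (bits L).length : ℕ) ∧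
      ((∀ l ∈ L, ∀ v ∈ l, v < L.length) →
        M.expectedTime (bits L) ≤ (q.eval L.length : ℕ)) := by
  obtain ⟨M, p, q, h⟩ := Pool.Agent.NPC.R997.sampler
  exact ⟨M, p, q, fun Δ d L hΔ hd _ hL => h Δ d L hΔ hd hL⟩

end Pool.Agent.Results.MP_d8fb5e_lc.ExactUniformSampler
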